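import Mathlib

/-!
# MP_db9399, all scales, block [A], flow part: integral rounding in bipartite multigraphs (helper75)

`E` = edges, `α : E → A`, `β : E → B` their ends.  `round_bip`: every real weighting of the edges can be
rounded to an integral one such that every edge value and every vertex sum is rounded up or down.
`exact_sub`: fractional certificate ⟹ exact subgraph.
-/

set_option autoImplicit false

namespace Pool.Agent.Work.MP_db9399_as_helper75

open Finset

section move

variable {ι : Type*} [Fintype ι]

/-- Move along a line until the next integer is hit. -/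
lemma move (c d : ι → ℝ) (hc : ∀ i, (⌊c i⌋ : ℝ) = c i → d i = 0) (hd : ∃ i, d i ≠ 0) :
    ∃ t : ℝ, (∀ i, (⌊c i⌋ : ℝ) ≤ c i + t * d i ∧ c i + t * d i ≤ ⌈c i⌉) ∧
      ∃ i, (⌊c i⌋ : ℝ) ≠ c i ∧ ∃ n : ℤ, c i + t * d i = n := by
  classical
  -- hitting times
  set h : ι → ℝ := fun i => if 0 < d i then (⌈c i⌉ - c i) / d i else (⌊c i⌋ - c i) / d i with hh
  set I : Finset ι := univ.filter fun i => d i ≠ 0 with hI
  have hIne : I.Nonempty := by
    obtain ⟨i, hi⟩ := hd
    exact ⟨i, by simp [hI, hi]⟩
  obtain ⟨i0, hi0, hmin⟩ := I.exists_min_image h hIne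
  have hd0 : d i0 ≠ 0 := by simpa [hI] using hi0
  have hnn : ∀ i, d i ≠ 0 → 0 ≤ h i := by
    intro i hi
    simp only [hh]
    split_ifs with hp
    · exact div_nonneg (sub_nonneg.mpr (Int.le_ceil _)) hp.le
    · exact div_nonneg_of_nonpos (sub_nonpos.mpr (Int.floor_le _)) (not_lt.mp hp)
  have ht0 : 0 ≤ h i0 := hnn i0 hd0
  refine ⟨h i0, ?_, i0, ?_, ?_⟩
  · intro i
    by_cases hi : d i = 0
    · rw [hi, mul_zero, add_zero]
      exact ⟨Int.floor_le _, Int.le_ceil _⟩
    · have hle : h i0 ≤ h i := hmin i (by simp [hI, hi])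
      rcases lt_or_gt_of_ne hi with hn | hp
      · have h1 : h i = (⌊c i⌋ - c i) / d i := by
          simp only [hh]; rw [if_neg (not_lt.mpr hn.le)]
        have h2 : h i0 * d i ≤ 0 := mul_nonpos_of_nonneg_of_nonpos ht0 hn.le
        have h3 : h i * d i = ⌊c i⌋ - c i := by
          rw [h1, div_mul_cancel₀ _ hi]
        have h4 : h i * d i ≤ h i0 * d i := mul_le_mul_of_nonpos_right hle hn.le
        constructor
        · linarith
        · have := Int.le_ceil (c i); linarith
      · have h1 : h i = (⌈c i⌉ - c i) / d i := by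
          simp only [hh]; rw [if_pos hp]
        have h2 : 0 ≤ h i0 * d i := mul_nonneg ht0 hp.le
        have h3 : h i * d i = ⌈c i⌉ - c i := by
          rw [h1, div_mul_cancel₀ _ hi]
        have h4 : h i0 * d i ≤ h i * d i := mul_le_mul_of_nonneg_right hle hp.le
        constructor
        · have := Int.floor_le (c i); linarith
        · linarith
  · intro hcon
    exact hd0 (hc i0 hcon)
  · rcases lt_or_gt_of_ne hd0 with hn | hp
    · refine ⟨⌊c i0⌋, ?_⟩
      have h1 : h i0 = (⌊c i0⌋ - c i0) / d i0 := by
        simp only [hh]; rw [if_neg (not_lt.mpr hn.le)]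
      rw [h1, div_mul_cancel₀ _ hd0]; ring
    · refine ⟨⌈c i0⌉, ?_⟩
      have h1 : h i0 = (⌈c i0⌉ - c i0) / d i0 := by
        simp only [hh]; rw [if_pos hp]
      rw [h1, div_mul_cancel₀ _ hd0]; ring

end move

section dir

variable {E A B : Type*} [Fintype E] [Fintype A] [Fintype B] [DecidableEq E] [DecidableEq A]
  [DecidableEq B]

/-- A direction which keeps all the integral vertex sums. -/
lemma exists_dir (α : E → A) (β : E → B) (F : Finset E) (hF : F.Nonempty) (TA : Finset A)
    (TB : Finset B) (hA : ∀ a ∈ TA, 2 ≤ (F.filter fun e => α e = a).card)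
    (hB : ∀ b ∈ TB, 2 ≤ (F.filter fun e => β e = b).card) :
    ∃ y : E → ℝ, (∀ e, e ∉ F → y e = 0) ∧ (∃ e, y e ≠ 0) ∧
      (∀ a ∈ TA, ∑ e with α e = a, y e = 0) ∧ ∀ b ∈ TB, ∑ e with β e = b, y e = 0 := by
  classical
  let Φ : (F → ℝ) →ₗ[ℝ] ((TA ⊕ TB) → ℝ) :=
    { toFun := fun y => Sum.elim (fun a => ∑ e : F, if α e = a then y e else 0)
        (fun b => ∑ e : F, if β e = b then y e else 0)
      map_add' := by
        intro y z
        funext s
        rcases s with a | b
        · simp only [Sum.elim_inl, Pi.add_apply]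
          rw [← sum_add_distrib]
          refine sum_congr rfl fun e _ => ?_
          split_ifs <;> simp
        · simp only [Sum.elim_inr, Pi.add_apply]
          rw [← sum_add_distrib]
          refine sum_congr rfl fun e _ => ?_
          split_ifs <;> simp
      map_smul' := by
        intro c y
        funext s
        rcases s with a | b
        · simp only [Sum.elim_inl, Pi.smul_apply, RingHom.id_apply, smul_eq_mul]
          rw [mul_sum]
          refine sum_congr rfl fun e _ => ?_
          split_ifs <;> simp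
        · simp only [Sum.elim_inr, Pi.smul_apply, RingHom.id_apply, smul_eq_mul]
          rw [mul_sum]
          refine sum_congr rfl fun e _ => ?_
          split_ifs <;> simp }
  have cA : 2 * TA.card ≤ F.card := by
    calc 2 * TA.card = ∑ a ∈ TA, 2 := by rw [sum_const, smul_eq_mul, mul_comm]
      _ ≤ ∑ a ∈ TA, (F.filter fun e => α e = a).card := sum_le_sum hA
      _ = (TA.biUnion fun a => F.filter fun e => α e = a).card := by
          rw [card_biUnion]
          intro a _ a' _ haa
          simp only [Function.onFun]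
          rw [Finset.disjoint_left]
          intro e he he'
          simp only [mem_filter] at he he'
          exact haa (he.2.symm.trans he'.2)
      _ ≤ F.card := by
          refine card_le_card ?_
          intro e he
          simp only [mem_biUnion, mem_filter] at he
          obtain ⟨a, _, h, _⟩ := he
          exact h
  have cB : 2 * TB.card ≤ F.card := by
    calc 2 * TB.card = ∑ a ∈ TB, 2 := by rw [sum_const, smul_eq_mul, mul_comm]
      _ ≤ ∑ a ∈ TB, (F.filter fun e => β e = a).card := sum_le_sum hB
      _ = (TB.biUnion fun a => F.filter fun e => β e = a).card := by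
          rw [card_biUnion]
          intro a _ a' _ haa
          simp only [Function.onFun]
          rw [Finset.disjoint_left]
          intro e he he'
          simp only [mem_filter] at he he'
          exact haa (he.2.symm.trans he'.2)
      _ ≤ F.card := by
          refine card_le_card ?_
          intro e he
          simp only [mem_biUnion, mem_filter] at he
          obtain ⟨a, _, h, _⟩ := he
          exact h
  have key : ∃ y : F → ℝ, y ≠ 0 ∧ Φ y = 0 := by
    by_contra hcon
    push Not at hcon
    have hinj : Function.Injective Φ := by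
      rw [← LinearMap.ker_eq_bot, LinearMap.ker_eq_bot']
      intro y hy
      by_contra h
      exact hcon y h hy
    have hfr : Module.finrank ℝ (F → ℝ) ≤ Module.finrank ℝ ((TA ⊕ TB) → ℝ) :=
      LinearMap.finrank_le_finrank_of_injective hinj
    rw [Module.finrank_fintype_fun_eq_card, Module.finrank_fintype_fun_eq_card,
      Fintype.card_sum, Fintype.card_coe, Fintype.card_coe, Fintype.card_coe] at hfr
    have eq : F.card = TA.card + TB.card := by omega
    have eA : 2 * TA.card = F.card := by omega
    have eB : 2 * TB.card = F.card := by omega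
    have hsurj : Function.Surjective Φ := by
      refine (LinearMap.injective_iff_surjective_of_finrank_eq_finrank ?_).mp hinj
      rw [Module.finrank_fintype_fun_eq_card, Module.finrank_fintype_fun_eq_card,
        Fintype.card_sum, Fintype.card_coe, Fintype.card_coe, Fintype.card_coe]
      exact eq
    -- every edge of F has its ends in TA, TB
    have allA : ∀ e ∈ F, α e ∈ TA := by
      have h1 : (TA.biUnion fun a => F.filter fun e => α e = a) = F := by
        refine eq_of_subset_of_card_le ?_ ?_
        · intro e he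
          simp only [mem_biUnion, mem_filter] at he
          obtain ⟨a, _, h, _⟩ := he
          exact h
        · rw [card_biUnion]
          · calc F.card = 2 * TA.card := eA.symm
              _ = ∑ a ∈ TA, 2 := by rw [sum_const, smul_eq_mul, mul_comm]
              _ ≤ _ := sum_le_sum hA
          · intro a _ a' _ haa
            simp only [Function.onFun]
            rw [Finset.disjoint_left]
            intro e he he'
            simp only [mem_filter] at he he'
            exact haa (he.2.symm.trans he'.2)
      intro e he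
      rw [← h1] at he
      simp only [mem_biUnion, mem_filter] at he
      obtain ⟨a, ha, _, h⟩ := he
      rw [h]; exact ha
    have allB : ∀ e ∈ F, β e ∈ TB := by
      have h1 : (TB.biUnion fun a => F.filter fun e => β e = a) = F := by
        refine eq_of_subset_of_card_le ?_ ?_
        · intro e he
          simp only [mem_biUnion, mem_filter] at he
          obtain ⟨a, _, h, _⟩ := he
          exact h
        · rw [card_biUnion]
          · calc F.card = 2 * TB.card := eB.symm
              _ = ∑ a ∈ TB, 2 := by rw [sum_const, smul_eq_mul, mul_comm]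
              _ ≤ _ := sum_le_sum hB
          · intro a _ a' _ haa
            simp only [Function.onFun]
            rw [Finset.disjoint_left]
            intro e he he'
            simp only [mem_filter] at he he'
            exact haa (he.2.symm.trans he'.2)
      intro e he
      rw [← h1] at he
      simp only [mem_biUnion, mem_filter] at he
      obtain ⟨a, ha, _, h⟩ := he
      rw [h]; exact ha
    obtain ⟨y, hy⟩ := hsurj (Sum.elim (fun _ => 1) (fun _ => 0))
    have sA : ∑ a : TA, Φ y (Sum.inl a) = ∑ e : F, y e := by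
      change ∑ a : TA, ∑ e : F, (if α e = a then y e else 0) = _
      rw [sum_comm]
      refine sum_congr rfl fun e _ => ?_
      rw [sum_eq_single (⟨α e, allA e e.2⟩ : TA)]
      · simp
      · intro a _ hne
        rw [if_neg]
        intro h
        apply hne
        apply Subtype.ext
        exact h.symm
      · intro h; exact absurd (mem_univ _) h
    have sB : ∑ b : TB, Φ y (Sum.inr b) = ∑ e : F, y e := by
      change ∑ a : TB, ∑ e : F, (if β e = a then y e else 0) = _
      rw [sum_comm]
      refine sum_congr rfl fun e _ => ?_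
      rw [sum_eq_single (⟨β e, allB e e.2⟩ : TB)]
      · simp
      · intro a _ hne
        rw [if_neg]
        intro h
        apply hne
        apply Subtype.ext
        exact h.symm
      · intro h; exact absurd (mem_univ _) h
    rw [hy] at sA sB
    simp only [Sum.elim_inl, Sum.elim_inr, sum_const, smul_eq_mul, mul_one, mul_zero,
      nsmul_eq_mul] at sA sB
    rw [← sB] at sA
    have hc : (0 : ℝ) < (univ : Finset TA).card := by
      rw [Finset.card_univ, Fintype.card_coe]
      have : 0 < F.card := hF.card_pos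
      have : 0 < TA.card := by omega
      exact_mod_cast this
    simp at sA
    have : TA.card = 0 := by
      rw [sA]; rfl
    have : 0 < F.card := hF.card_pos
    omega
  obtain ⟨y, hy0, hy⟩ := key
  set g : E → ℝ := fun e => if h : e ∈ F then y ⟨e, h⟩ else 0 with hg
  have hg0 : ∀ e, e ∉ F → g e = 0 := fun e he => by simp only [hg, dif_neg he]
  have hg1 : ∀ e : F, g e = y e := fun e => by simp only [hg, dif_pos e.2]
  have tr : ∀ (P : E → Prop) [DecidablePred P],
      ∑ e with P e, g e = ∑ e : F, if P e then y e else 0 := by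
    intro P _
    rw [sum_filter, ← sum_subset (subset_univ F), ← sum_coe_sort F]
    · refine sum_congr rfl fun e _ => ?_
      rw [hg1]
    · intro e _ he
      rw [hg0 e he]; simp
  refine ⟨g, hg0, ?_, ?_, ?_⟩
  · by_contra hcon
    push Not at hcon
    apply hy0
    funext e
    have := hcon e
    rw [hg1] at this
    exact this
  · intro a ha
    have h1 := congrFun hy (Sum.inl ⟨a, ha⟩)
    rw [tr]
    exact h1
  · intro b hb
    have h1 := congrFun hy (Sum.inr ⟨b, hb⟩)
    rw [tr]
    exact h1

end dir

section main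

variable {E A B : Type*} [Fintype E] [Fintype A] [Fintype B] [DecidableEq E] [DecidableEq A]
  [DecidableEq B]

/-- the values which have to be rounded: edges and vertex sums -/
noncomputable def val (α : E → A) (β : E → B) (x : E → ℝ) : E ⊕ A ⊕ B → ℝ :=
  Sum.elim x (Sum.elim (fun a => ∑ e with α e = a, x e) (fun b => ∑ e with β e = b, x e))

lemma val_add (α : E → A) (β : E → B) (x y : E → ℝ) (t : ℝ) (i : E ⊕ A ⊕ B) :
    val α β (fun e => x e + t * y e) i = val α β x i + t * val α β y i := by
  rcases i with e | a | b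
  · rfl
  · simp only [val, Sum.elim_inr, Sum.elim_inl]
    rw [sum_add_distrib, mul_sum]
  · simp only [val, Sum.elim_inr]
    rw [sum_add_distrib, mul_sum]

lemma two_le (F : Finset E) (x : E → ℝ) (hF : ∀ e, e ∈ F ↔ (⌊x e⌋ : ℝ) ≠ x e) (P : E → Prop)
    [DecidablePred P] (hP : ∃ e ∈ F, P e) (hs : (⌊∑ e with P e, x e⌋ : ℝ) = ∑ e with P e, x e) :
    2 ≤ (F.filter P).card := by
  classical
  by_contra hcon
  push Not at hcon
  obtain ⟨e0, he0, hPe0⟩ := hP
  have hmem : e0 ∈ F.filter P := by simp [he0, hPe0]
  have h1 : (F.filter P).card = 1 := by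
    have : 0 < (F.filter P).card := card_pos.mpr ⟨e0, hmem⟩
    omega
  rw [card_eq_one] at h1
  obtain ⟨e1, he1⟩ := h1
  have : e0 = e1 := by rw [he1] at hmem; simpa using hmem
  subst this
  apply (hF e0).mp he0
  have hsum : ∑ e with P e, x e = x e0 + ∑ e ∈ (univ.filter P).erase e0, x e := by
    rw [add_sum_erase]
    simp [hPe0]
  have hint : ∑ e ∈ (univ.filter P).erase e0, x e
      = ((∑ e ∈ (univ.filter P).erase e0, ⌊x e⌋ : ℤ) : ℝ) := by
    push_cast
    refine sum_congr rfl fun e he => ?_
    simp only [mem_erase, mem_filter, mem_univ, true_and] at he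
    by_contra h
    have hm : e ∈ F.filter P := by
      simp only [mem_filter]
      exact ⟨(hF e).mpr (fun h' => h h'.symm), he.2⟩
    rw [he1] at hm
    exact he.1 (by simpa using hm)
  have hx : x e0 = ((⌊∑ e with P e, x e⌋ - ∑ e ∈ (univ.filter P).erase e0, ⌊x e⌋ : ℤ) : ℝ) := by
    push_cast
    push_cast at hint
    rw [hs, hsum, hint]; ring
  rw [hx, Int.floor_intCast]

/-- One step of the rounding. -/
lemma step (α : E → A) (β : E → B) (x : E → ℝ) (hne : ∃ e, (⌊x e⌋ : ℝ) ≠ x e) :
    ∃ x' : E → ℝ, (∀ i, (⌊val α β x i⌋ : ℝ) ≤ val α β x' i ∧ val α β x' i ≤ ⌈val α β x i⌉) ∧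
      (univ.filter fun i => (⌊val α β x' i⌋ : ℝ) ≠ val α β x' i).card <
        (univ.filter fun i => (⌊val α β x i⌋ : ℝ) ≠ val α β x i).card := by
  classical
  set F : Finset E := univ.filter fun e => (⌊x e⌋ : ℝ) ≠ x e with hFdef
  have hF : ∀ e, e ∈ F ↔ (⌊x e⌋ : ℝ) ≠ x e := by intro e; simp [hFdef]
  have hFne : F.Nonempty := by
    obtain ⟨e, he⟩ := hne
    exact ⟨e, (hF e).mpr he⟩
  set TA : Finset A := univ.filter fun a => (∃ e ∈ F, α e = a) ∧
    (⌊∑ e with α e = a, x e⌋ : ℝ) = ∑ e with α e = a, x e with hTA
  set TB : Finset B := univ.filter fun b => (∃ e ∈ F, β e = b) ∧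
    (⌊∑ e with β e = b, x e⌋ : ℝ) = ∑ e with β e = b, x e with hTB
  obtain ⟨y, y0, yne, yA, yB⟩ := exists_dir α β F hFne TA TB
    (fun a ha => by
      simp only [hTA, mem_filter, mem_univ, true_and] at ha
      exact two_le F x hF _ ha.1 ha.2)
    (fun b hb => by
      simp only [hTB, mem_filter, mem_univ, true_and] at hb
      exact two_le F x hF _ hb.1 hb.2)
  have hz : ∀ i, (⌊val α β x i⌋ : ℝ) = val α β x i → val α β y i = 0 := by
    intro i hi
    rcases i with e | a | b
    · simp only [val, Sum.elim_inl] at hi ⊢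
      refine y0 e ?_
      rw [hF]; exact fun h => h hi
    · simp only [val, Sum.elim_inr, Sum.elim_inl] at hi ⊢
      by_cases ha : ∃ e ∈ F, α e = a
      · exact yA a (by simp only [hTA, mem_filter, mem_univ, true_and]; exact ⟨ha, hi⟩)
      · refine sum_eq_zero fun e he => y0 e fun heF => ha ⟨e, heF, ?_⟩
        simpa using he
    · simp only [val, Sum.elim_inr] at hi ⊢
      by_cases hb : ∃ e ∈ F, β e = b
      · exact yB b (by simp only [hTB, mem_filter, mem_univ, true_and]; exact ⟨hb, hi⟩)
      · refine sum_eq_zero fun e he => y0 e fun heF => hb ⟨e, heF, ?_⟩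
        simpa using he
  obtain ⟨t, ht, i0, hi0, n, hn⟩ := move (val α β x) (val α β y) hz (by
    obtain ⟨e, he⟩ := yne
    exact ⟨Sum.inl e, he⟩)
  refine ⟨fun e => x e + t * y e, ?_, ?_⟩
  · intro i
    rw [val_add]
    exact ht i
  · refine card_lt_card ?_
    rw [ssubset_iff_of_subset]
    · refine ⟨i0, by simp [hi0], ?_⟩
      simp only [mem_filter, mem_univ, true_and, not_not]
      rw [val_add, hn, Int.floor_intCast]
    · intro i hi
      simp only [mem_filter, mem_univ, true_and] at hi ⊢
      intro h
      apply hi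
      rw [val_add, hz i h, mul_zero, add_zero]
      exact h

/-- Every real weighting of the edges of a bipartite multigraph can be rounded to an integral one
such that every value and every vertex sum is rounded up or down. -/
theorem round_bip (α : E → A) (β : E → B) (x : E → ℝ) :
    ∃ z : E → ℤ, (∀ e, ⌊x e⌋ ≤ z e ∧ z e ≤ ⌈x e⌉) ∧
      (∀ a, ⌊∑ e with α e = a, x e⌋ ≤ ∑ e with α e = a, z e ∧
        ∑ e with α e = a, z e ≤ ⌈∑ e with α e = a, x e⌉) ∧
      ∀ b, ⌊∑ e with β e = b, x e⌋ ≤ ∑ e with β e = b, z e ∧
        ∑ e with β e = b, z e ≤ ⌈∑ e with β e = b, x e⌉ := by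
  classical
  induction hm : (univ.filter fun i => (⌊val α β x i⌋ : ℝ) ≠ val α β x i).card using
    Nat.strong_induction_on generalizing x with
  | _ m ih =>
    by_cases hne : ∃ e, (⌊x e⌋ : ℝ) ≠ x e
    · obtain ⟨x', h1, h2⟩ := step α β x hne
      obtain ⟨z, z1, z2, z3⟩ := ih _ (hm ▸ h2) x' rfl
      refine ⟨z, fun e => ?_, fun a => ?_, fun b => ?_⟩
      · have h := h1 (Sum.inl e)
        simp only [val, Sum.elim_inl] at h
        exact ⟨(Int.le_floor.mpr h.1).trans (z1 e).1, (z1 e).2.trans (Int.ceil_le.mpr h.2)⟩
      · have h := h1 (Sum.inr (Sum.inl a))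
        simp only [val, Sum.elim_inr, Sum.elim_inl] at h
        exact ⟨(Int.le_floor.mpr h.1).trans (z2 a).1, (z2 a).2.trans (Int.ceil_le.mpr h.2)⟩
      · have h := h1 (Sum.inr (Sum.inr b))
        simp only [val, Sum.elim_inr] at h
        exact ⟨(Int.le_floor.mpr h.1).trans (z3 b).1, (z3 b).2.trans (Int.ceil_le.mpr h.2)⟩
    · push Not at hne
      have hs : ∀ (P : E → Prop) [DecidablePred P],
          ∑ e with P e, x e = ((∑ e with P e, ⌊x e⌋ : ℤ) : ℝ) := by
        intro P _
        push_cast
        exact sum_congr rfl fun e _ => (hne e).symm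
      refine ⟨fun e => ⌊x e⌋, fun e => ⟨le_refl _, Int.floor_le_ceil _⟩, fun a => ?_, fun b => ?_⟩
      · rw [hs, Int.floor_intCast, Int.ceil_intCast]
        exact ⟨le_refl _, le_refl _⟩
      · rw [hs, Int.floor_intCast, Int.ceil_intCast]
        exact ⟨le_refl _, le_refl _⟩

/-- Fractional certificate ⟹ exact subgraph.  `x` is a fractional subgraph of the bipartite
multigraph `(E, α, β)` whose vertex sums are the integers `f`, `g` outside `MA`, `MB` and lie in
`[f, f + 1]`, `[g, g + 1]` there. -/
theorem exact_sub (α : E → A) (β : E → B) (x : E → ℝ) (hx : ∀ e, 0 ≤ x e ∧ x e ≤ 1)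
    (f : A → ℕ) (g : B → ℕ) (MA : Finset A) (MB : Finset B)
    (hA : ∀ a, a ∉ MA → ∑ e with α e = a, x e = f a)
    (hA' : ∀ a ∈ MA, (f a : ℝ) ≤ ∑ e with α e = a, x e ∧ ∑ e with α e = a, x e ≤ f a + 1)
    (hB : ∀ b, b ∉ MB → ∑ e with β e = b, x e = g b)
    (hB' : ∀ b ∈ MB, (g b : ℝ) ≤ ∑ e with β e = b, x e ∧ ∑ e with β e = b, x e ≤ g b + 1) :
    ∃ C : Finset E, (∀ e ∈ C, 0 < x e) ∧ (∀ e, x e = 1 → e ∈ C) ∧
      (∀ a, a ∉ MA → (C.filter fun e => α e = a).card = f a) ∧
      (∀ a ∈ MA, (C.filter fun e => α e = a).card = f a ∨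
        (C.filter fun e => α e = a).card = f a + 1) ∧
      (∀ b, b ∉ MB → (C.filter fun e => β e = b).card = g b) ∧
      ∀ b ∈ MB, (C.filter fun e => β e = b).card = g b ∨
        (C.filter fun e => β e = b).card = g b + 1 := by
  classical
  obtain ⟨z, z1, z2, z3⟩ := round_bip α β x
  have z01 : ∀ e, z e = 0 ∨ z e = 1 := by
    intro e
    have h1 := (z1 e).1
    have h2 := (z1 e).2
    have h3 : 0 ≤ ⌊x e⌋ := Int.floor_nonneg.mpr (hx e).1
    have h4 : ⌈x e⌉ ≤ 1 := Int.ceil_le.mpr (by exact_mod_cast (hx e).2)
    omega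
  set C : Finset E := univ.filter fun e => z e = 1 with hC
  have hcard : ∀ (P : E → Prop) [DecidablePred P],
      ((C.filter P).card : ℤ) = ∑ e with P e, z e := by
    intro P _
    rw [card_eq_sum_ones]
    push_cast
    rw [hC, filter_filter, sum_filter, sum_filter]
    refine sum_congr rfl fun e _ => ?_
    rcases z01 e with h | h <;> by_cases hP : P e <;> simp [h, hP]
  refine ⟨C, ?_, ?_, ?_, ?_, ?_, ?_⟩
  · intro e he
    simp only [hC, mem_filter, mem_univ, true_and] at he
    by_contra hcon
    have h0 : x e = 0 := le_antisymm (not_lt.mp hcon) (hx e).1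
    have h2 := (z1 e).2
    rw [h0, Int.ceil_zero] at h2
    omega
  · intro e he
    simp only [hC, mem_filter, mem_univ, true_and]
    have h1 := (z1 e).1
    rw [he, Int.floor_one] at h1
    rcases z01 e with h | h
    · omega
    · exact h
  · intro a ha
    have h := z2 a
    rw [hA a ha, Int.floor_natCast, Int.ceil_natCast, ← hcard] at h
    omega
  · intro a ha
    have h := z2 a
    rw [← hcard] at h
    have h1 : (f a : ℤ) ≤ ⌊∑ e with α e = a, x e⌋ := Int.le_floor.mpr (by exact_mod_cast (hA' a ha).1)
    have h2 : ⌈∑ e with α e = a, x e⌉ ≤ (f a : ℤ) + 1 :=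
      Int.ceil_le.mpr (by push_cast; exact (hA' a ha).2)
    omega
  · intro b hb
    have h := z3 b
    rw [hB b hb, Int.floor_natCast, Int.ceil_natCast, ← hcard] at h
    omega
  · intro b hb
    have h := z3 b
    rw [← hcard] at h
    have h1 : (g b : ℤ) ≤ ⌊∑ e with β e = b, x e⌋ := Int.le_floor.mpr (by exact_mod_cast (hB' b hb).1)
    have h2 : ⌈∑ e with β e = b, x e⌉ ≤ (g b : ℤ) + 1 :=
      Int.ceil_le.mpr (by push_cast; exact (hB' b hb).2)
    omega

end main

end Pool.Agent.Work.MP_db9399_as_helper75
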