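import Pool.Agent.Work.MP_db9399_all.Interface
import Pool.Agent.Work.MP_db9399_as_helper75.ROUND

/-!
# MP_db9399, all scales, block [A], flow part (helper75)

`D` = an orientation of (some) edges of `G`.  `S0` = arcs chosen for sure, `C0` = arcs which may be used.
`x` = fractional certificate on `C0`.  Then there is an integral `S`, `S0 ⊆ S ⊆ S0 ∪ C0`, with the
prescribed out- and in-degrees (one more is allowed at `MO`, `MI` if the certificate has slack there).
-/

set_option autoImplicit false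

namespace Pool.Agent.Work.MP_db9399_as_helper75

open Finset
open Pool.Agent.Work.MP_db9399_all (nb)

variable {V : Type*} [Fintype V] [DecidableEq V]

/-- Fractional certificate ⟹ exact set of arcs. -/
theorem exact_arcs (S0 C0 : Finset (V × V)) (hdis : Disjoint S0 C0) (x : V → V → ℝ)
    (hx : ∀ u v, 0 ≤ x u v ∧ x u v ≤ 1) (hx0 : ∀ u v, (u, v) ∉ C0 → x u v = 0)
    (fo fi : V → ℕ) (MO MI : Finset V)
    (hO : ∀ v, v ∉ MO → ((S0.filter fun p => p.1 = v).card : ℝ) + ∑ w, x v w = fo v)
    (hO' : ∀ v ∈ MO, (fo v : ℝ) ≤ ((S0.filter fun p => p.1 = v).card : ℝ) + ∑ w, x v w ∧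
      ((S0.filter fun p => p.1 = v).card : ℝ) + ∑ w, x v w ≤ fo v + 1)
    (hI : ∀ v, v ∉ MI → ((S0.filter fun p => p.2 = v).card : ℝ) + ∑ u, x u v = fi v)
    (hI' : ∀ v ∈ MI, (fi v : ℝ) ≤ ((S0.filter fun p => p.2 = v).card : ℝ) + ∑ u, x u v ∧
      ((S0.filter fun p => p.2 = v).card : ℝ) + ∑ u, x u v ≤ fi v + 1) :
    ∃ S : Finset (V × V), S0 ⊆ S ∧ S ⊆ S0 ∪ C0 ∧
      (∀ v, v ∉ MO → (S.filter fun p => p.1 = v).card = fo v) ∧
      (∀ v ∈ MO, (S.filter fun p => p.1 = v).card = fo v ∨
        (S.filter fun p => p.1 = v).card = fo v + 1) ∧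
      (∀ v, v ∉ MI → (S.filter fun p => p.2 = v).card = fi v) ∧
      ∀ v ∈ MI, (S.filter fun p => p.2 = v).card = fi v ∨
        (S.filter fun p => p.2 = v).card = fi v + 1 := by
  classical
  set X : V × V → ℝ := fun p => if p ∈ S0 then 1 else x p.1 p.2 with hX
  have hX01 : ∀ p, 0 ≤ X p ∧ X p ≤ 1 := by
    intro p
    simp only [hX]
    split_ifs
    · exact ⟨zero_le_one, le_refl _⟩
    · exact hx _ _
  have hsplit : ∀ p, X p = (if p ∈ S0 then 1 else 0) + x p.1 p.2 := by
    intro p
    simp only [hX]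
    split_ifs with h
    · rw [hx0 p.1 p.2 (fun h' => (Finset.disjoint_left.mp hdis) h h'), add_zero]
    · rw [zero_add]
  have so : ∀ v, ∑ p with p.1 = v, X p = ((S0.filter fun p => p.1 = v).card : ℝ) + ∑ w, x v w := by
    intro v
    simp_rw [hsplit]
    rw [sum_add_distrib]
    congr 1
    · rw [← sum_filter, filter_filter, sum_const, nsmul_eq_mul, mul_one]
      congr 2
      ext p
      simp [and_comm]
    · rw [sum_filter, ← univ_product_univ, sum_product, sum_eq_single v]
      · simp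
      · intro b _ hb
        exact sum_eq_zero fun w _ => if_neg hb
      · intro h; exact absurd (mem_univ _) h
  have si : ∀ v, ∑ p with p.2 = v, X p = ((S0.filter fun p => p.2 = v).card : ℝ) + ∑ u, x u v := by
    intro v
    simp_rw [hsplit]
    rw [sum_add_distrib]
    congr 1
    · rw [← sum_filter, filter_filter, sum_const, nsmul_eq_mul, mul_one]
      congr 2
      ext p
      simp [and_comm]
    · rw [sum_filter, ← univ_product_univ, sum_product_right, sum_eq_single v]
      · simp
      · intro b _ hb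
        exact sum_eq_zero fun w _ => if_neg hb
      · intro h; exact absurd (mem_univ _) h
  obtain ⟨C, hC0, hC1, hCo, hCo', hCi, hCi'⟩ := exact_sub (fun p : V × V => p.1)
    (fun p : V × V => p.2) X hX01 fo fi MO MI
    (fun v hv => by rw [so]; exact hO v hv) (fun v hv => by rw [so]; exact hO' v hv)
    (fun v hv => by rw [si]; exact hI v hv) (fun v hv => by rw [si]; exact hI' v hv)
  refine ⟨C, ?_, ?_, hCo, hCo', hCi, hCi'⟩
  · intro p hp
    exact hC1 p (by simp only [hX, if_pos hp])
  · intro p hp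
    by_contra hcon
    rw [mem_union, not_or] at hcon
    have h := hC0 p hp
    rw [hsplit, if_neg hcon.1, hx0 p.1 p.2 hcon.2] at h
    simp at h

/-- Graph form: all arcs are arcs of an orientation `D` of edges of `G`; the degree of `v` in the
graph `S` is its out-degree plus its in-degree.  `MO`, `MI` disjoint: at most one extra edge. -/
theorem exact_graph (G : SimpleGraph V) (D : V → V → Prop) (hD : ∀ u v, D u v → G.Adj u v ∧ ¬ D v u)
    (S0 C0 : Finset (V × V)) (hS0 : ∀ p ∈ S0, D p.1 p.2) (hC0 : ∀ p ∈ C0, D p.1 p.2)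
    (hdis : Disjoint S0 C0) (x : V → V → ℝ)
    (hx : ∀ u v, 0 ≤ x u v ∧ x u v ≤ 1) (hx0 : ∀ u v, (u, v) ∉ C0 → x u v = 0)
    (fo fi : V → ℕ) (MO MI : Finset V) (hM : Disjoint MO MI)
    (hO : ∀ v, v ∉ MO → ((S0.filter fun p => p.1 = v).card : ℝ) + ∑ w, x v w = fo v)
    (hO' : ∀ v ∈ MO, (fo v : ℝ) ≤ ((S0.filter fun p => p.1 = v).card : ℝ) + ∑ w, x v w ∧
      ((S0.filter fun p => p.1 = v).card : ℝ) + ∑ w, x v w ≤ fo v + 1)
    (hI : ∀ v, v ∉ MI → ((S0.filter fun p => p.2 = v).card : ℝ) + ∑ u, x u v = fi v)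
    (hI' : ∀ v ∈ MI, (fi v : ℝ) ≤ ((S0.filter fun p => p.2 = v).card : ℝ) + ∑ u, x u v ∧
      ((S0.filter fun p => p.2 = v).card : ℝ) + ∑ u, x u v ≤ fi v + 1) :
    ∃ S : SimpleGraph V, S ≤ G ∧
      (∀ p ∈ S0, S.Adj p.1 p.2) ∧
      (∀ u v, S.Adj u v → (u, v) ∈ S0 ∪ C0 ∨ (v, u) ∈ S0 ∪ C0) ∧
      (∀ v, v ∉ MO → v ∉ MI → (nb S v).card = fo v + fi v) ∧
      ∀ v, (nb S v).card = fo v + fi v ∨ (nb S v).card = fo v + fi v + 1 := by
  classical
  obtain ⟨T, h0, h1, ho, ho', hi, hi'⟩ :=
    exact_arcs S0 C0 hdis x hx hx0 fo fi MO MI hO hO' hI hI'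
  have hTD : ∀ u v, (u, v) ∈ T → D u v := by
    intro u v h
    rcases mem_union.mp (h1 h) with h' | h'
    · exact hS0 _ h'
    · exact hC0 _ h'
  let S : SimpleGraph V :=
    { Adj := fun u v => (u, v) ∈ T ∨ (v, u) ∈ T
      symm := ⟨fun u v h => h.symm⟩
      loopless := ⟨fun u h => by
        have h' : (u, u) ∈ T := by rcases h with h | h <;> exact h
        exact (hD u u (hTD u u h')).1.ne rfl⟩ }
  have hdeg : ∀ v, (nb S v).card =
      (T.filter fun p => p.1 = v).card + (T.filter fun p => p.2 = v).card := by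
    intro v
    have e1 : nb S v =
        (univ.filter fun w => (v, w) ∈ T) ∪ (univ.filter fun w => (w, v) ∈ T) := by
      ext w
      simp only [nb, mem_filter, mem_univ, true_and, mem_union]
      exact Iff.rfl
    rw [e1, card_union_of_disjoint]
    · congr 1
      · refine card_bij (fun w _ => (v, w)) ?_ ?_ ?_
        · intro w hw
          simp only [mem_filter, mem_univ, true_and] at hw ⊢
          exact ⟨hw, trivial⟩
        · intro w _ w' _ h
          exact (Prod.mk.injEq _ _ _ _ ▸ h).2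
        · rintro ⟨a, b⟩ hp
          simp only [mem_filter] at hp
          obtain ⟨hp, rfl⟩ := hp
          exact ⟨b, by simp [hp], rfl⟩
      · refine card_bij (fun w _ => (w, v)) ?_ ?_ ?_
        · intro w hw
          simp only [mem_filter, mem_univ, true_and] at hw ⊢
          exact ⟨hw, trivial⟩
        · intro w _ w' _ h
          exact (Prod.mk.injEq _ _ _ _ ▸ h).1
        · rintro ⟨a, b⟩ hp
          simp only [mem_filter] at hp
          obtain ⟨hp, rfl⟩ := hp
          exact ⟨a, by simp [hp], rfl⟩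
    · rw [Finset.disjoint_left]
      intro w hw hw'
      simp only [mem_filter, mem_univ, true_and] at hw hw'
      exact (hD v w (hTD _ _ hw)).2 (hTD _ _ hw')
  refine ⟨S, ?_, ?_, ?_, ?_, ?_⟩
  · intro u v h
    rcases h with h | h
    · exact (hD u v (hTD u v h)).1
    · exact (hD v u (hTD v u h)).1.symm
  · intro p hp
    exact Or.inl (h0 hp)
  · intro u v h
    rcases h with h | h
    · exact Or.inl (h1 h)
    · exact Or.inr (h1 h)
  · intro v hv hv'
    rw [hdeg v, ho v hv, hi v hv']
  · intro v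
    by_cases h : v ∈ MO
    · have h' : v ∉ MI := fun h' => (Finset.disjoint_left.mp hM) h h'
      rw [hdeg v, hi v h']
      rcases ho' v h with h2 | h2 <;> rw [h2]
      · left; rfl
      · right; ring
    · rw [hdeg v, ho v h]
      by_cases h' : v ∈ MI
      · rcases hi' v h' with h2 | h2 <;> rw [h2]
        · left; rfl
        · right; ring
      · rw [hi v h']; left; rfl

end Pool.Agent.Work.MP_db9399_as_helper75
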